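import Pool.Agent.BEH.StmtsD

namespace Pool.Agent.BEH.H41

open Set Filter Topology MeasureTheory
open scoped InnerProductSpace ENNReal
open Pool.Agent.BE01 Pool.Agent.BEL

noncomputable section

variable {d : ℕ}

/-- Quotients by powers are smooth on the half line. -/
theorem sm_quot {F : ℝ → ℝ} (hF : ContDiff ℝ ((⊤ : ℕ∞) : WithTop ℕ∞) F) {c : ℝ} (hc : c ≠ 0)
    (k : ℕ) : ContDiffOn ℝ ((⊤ : ℕ∞) : WithTop ℕ∞) (fun t => F t / (c * t ^ k)) (Ioi 0) := by
  apply hF.contDiffOn.div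
  · exact (contDiff_const.mul (contDiff_id.pow k)).contDiffOn
  · intro t ht
    exact mul_ne_zero hc (pow_ne_zero _ (ne_of_gt ht))

/-- A profile: `0` for `s ≤ b`, `1` for `s ≥ 1`, the derivative is `0` for `s ≤ 1/2`. -/
structure Pr2 (b A : ℝ) (θ θ' : ℝ → ℝ) : Prop where
  smooth : ContDiff ℝ ((⊤ : ℕ∞) : WithTop ℕ∞) θ
  der : ∀ s, HasDerivAt θ (θ' s) s
  smooth' : ContDiff ℝ ((⊤ : ℕ∞) : WithTop ℕ∞) θ'
  zero' : ∀ s, s ≤ 1 / 2 ∨ 1 ≤ s → θ' s = 0
  le' : ∀ s, 0 ≤ θ' s ∧ θ' s ≤ A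
  rng : ∀ s, 0 ≤ θ s ∧ θ s ≤ 1
  zero : ∀ s, s ≤ b → θ s = 0
  one : ∀ s, 1 ≤ s → θ s = 1

theorem pr2_of {A : ℝ} {θ θ' : ℝ → ℝ} (hP : Prof A θ θ') : Pr2 (1 / 2) A θ θ' where
  smooth := hP.smooth
  der := hP.der
  smooth' := hP.smooth'
  zero' := hP.zero'
  le' := hP.le'
  rng := hP.rng
  zero := hP.zero
  one := hP.one

/-- The inner profile. -/
def TT (k : ℕ) (θ : ℝ → ℝ) (t : ℝ) : ℝ := θ (t ^ k) * θ (2 * t)

/-- The derivative of the inner profile. -/
def TT' (k : ℕ) (θ θ' : ℝ → ℝ) (t : ℝ) : ℝ := k * t ^ (k - 1) * θ' (t ^ k) * θ (2 * t)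

theorem pr2_in {A : ℝ} {θ θ' : ℝ → ℝ} (hA : 0 < A) (hP : Prof A θ θ') {k : ℕ} (hk : 1 ≤ k)
    {lam : ℝ} (hl : 0 < lam) (hl2 : lam ^ k ≤ 1 / 2) :
    Pr2 lam (k * A) (TT k θ) (TT' k θ θ') := by
  have hk0 : k ≠ 0 := by omega
  have hlow : ∀ s : ℝ, s ≤ 1 / 4 → θ (2 * s) = 0 := by
    intro s hs
    apply hP.zero
    linarith
  have hpw : ∀ s : ℝ, 0 ≤ s → s ≤ 1 / 2 → s ^ k ≤ 1 / 2 := by
    intro s h0 h1
    exact (pow_le_of_le_one h0 (by linarith) hk0).trans h1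
  refine ⟨?_, ?_, ?_, ?_, ?_, ?_, ?_, ?_⟩
  · unfold TT
    exact (hP.smooth.comp (contDiff_id.pow k)).mul (hP.smooth.comp (contDiff_const.mul contDiff_id))
  · intro s
    have h1 : HasDerivAt (fun t : ℝ => θ (t ^ k)) (θ' (s ^ k) * (k * s ^ (k - 1))) s :=
      (hP.der (s ^ k)).comp s (hasDerivAt_pow k s)
    have h2 : HasDerivAt (fun t : ℝ => θ (2 * t)) (θ' (2 * s) * (2 * 1)) s :=
      (hP.der (2 * s)).comp s ((hasDerivAt_id s).const_mul 2)
    have h3 := h1.mul h2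
    have h4 : θ (s ^ k) * θ' (2 * s) = 0 := by
      by_cases h5 : s ≤ 1 / 4
      · rw [hP.zero' (2 * s) (Or.inl (by linarith)), mul_zero]
      · push Not at h5
        by_cases h6 : s ≤ 1 / 2
        · rw [hP.zero (s ^ k) (hpw s (by linarith) h6), zero_mul]
        · push Not at h6
          rw [hP.zero' (2 * s) (Or.inr (by linarith)), mul_zero]
    have h5 : θ' (s ^ k) * (k * s ^ (k - 1)) * θ (2 * s) + θ (s ^ k) * (θ' (2 * s) * (2 * 1)) =
        TT' k θ θ' s := by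
      unfold TT'
      linear_combination 2 * h4
    rw [h5] at h3
    exact h3
  · unfold TT'
    exact ((contDiff_const.mul (contDiff_id.pow (k - 1))).mul
      (hP.smooth'.comp (contDiff_id.pow k))).mul (hP.smooth.comp (contDiff_const.mul contDiff_id))
  · intro s hs
    unfold TT'
    rcases hs with hs | hs
    · by_cases h5 : s ≤ 1 / 4
      · rw [hlow s h5, mul_zero]
      · push Not at h5
        rw [hP.zero' (s ^ k) (Or.inl (hpw s (by linarith) hs))]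
        ring
    · rw [hP.zero' (s ^ k) (Or.inr (one_le_pow₀ hs))]
      ring
  · intro s
    unfold TT'
    by_cases h5 : s ≤ 1 / 4
    · rw [hlow s h5, mul_zero]
      exact ⟨le_rfl, by positivity⟩
    · push Not at h5
      have h0 : 0 < s := by linarith
      have h1 := hP.le' (s ^ k)
      have h2 := hP.rng (2 * s)
      have h3 : 0 ≤ (k : ℝ) * s ^ (k - 1) := by positivity
      refine ⟨mul_nonneg (mul_nonneg h3 h1.1) h2.1, ?_⟩
      by_cases h6 : s ≤ 1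
      · have h7 : s ^ (k - 1) ≤ 1 := pow_le_one₀ h0.le h6
        have h8 : (k : ℝ) * s ^ (k - 1) ≤ k := mul_le_of_le_one_right (by positivity) h7
        calc (k : ℝ) * s ^ (k - 1) * θ' (s ^ k) * θ (2 * s)
            ≤ (k : ℝ) * s ^ (k - 1) * θ' (s ^ k) := mul_le_of_le_one_right
              (mul_nonneg h3 h1.1) h2.2
          _ ≤ k * A := mul_le_mul h8 h1.2 h1.1 (by positivity)
      · push Not at h6
        rw [hP.zero' (s ^ k) (Or.inr (one_le_pow₀ h6.le))]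
        have : (0 : ℝ) ≤ k * A := by positivity
        calc (k : ℝ) * s ^ (k - 1) * 0 * θ (2 * s) = 0 := by ring
          _ ≤ _ := this
  · intro s
    unfold TT
    have h1 := hP.rng (s ^ k)
    have h2 := hP.rng (2 * s)
    exact ⟨mul_nonneg h1.1 h2.1, mul_le_one₀ h1.2 h2.1 h2.2⟩
  · intro s hs
    unfold TT
    by_cases h5 : s ≤ 1 / 4
    · rw [hlow s h5, mul_zero]
    · push Not at h5
      have h6 : s ^ k ≤ lam ^ k := pow_le_pow_left₀ (by linarith) hs k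
      rw [hP.zero (s ^ k) (h6.trans hl2), zero_mul]
  · intro s hs
    unfold TT
    rw [hP.one (s ^ k) (one_le_pow₀ hs), hP.one (2 * s) (by linarith), one_mul]

/-- The charge density. -/
def chg (d : ℕ) (w : ℝ) (θ' : ℝ → ℝ) (x : En d) (r : ℝ) (y : En d) : ℝ :=
  θ' (‖y - x‖ / r) / (r * w * ‖y - x‖ ^ (d - 1))

theorem chg_smooth (rgr : RgrStmt) {b A w : ℝ} {θ θ' : ℝ → ℝ} (hw : 0 < w) (hP : Pr2 b A θ θ')
    (x : En d) {r : ℝ} (hr : 0 < r) : ContDiff ℝ ((⊤ : ℕ∞) : WithTop ℕ∞) (chg d w θ' x r) := by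
  have h1 := (rgr d x (fun t => θ' (t / r) / (r * w * t ^ (d - 1))) (r / 2) (by positivity)
    (sm_quot (hP.smooth'.comp (contDiff_id.div_const r)) (mul_pos hr hw).ne' (d - 1)) ?_).1
  · exact h1
  · intro s hs
    have h2 : θ' (s / r) = 0 := by
      apply hP.zero'
      left
      rw [div_le_iff₀ hr]
      linarith
    have h3 : θ' 0 = 0 := by
      apply hP.zero'
      left
      norm_num
    simp only [h2, h3, zero_div]

theorem chg_nonneg {b A w : ℝ} {θ θ' : ℝ → ℝ} (hw : 0 < w) (hP : Pr2 b A θ θ') (x : En d) {r : ℝ}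
    (hr : 0 < r) (y : En d) : 0 ≤ chg d w θ' x r y := by
  unfold chg
  have := (hP.le' (‖y - x‖ / r)).1
  positivity

theorem chg_supp {b A w : ℝ} {θ θ' : ℝ → ℝ} (hP : Pr2 b A θ θ') (x : En d) {r : ℝ}
    (hr : 0 < r) (y : En d) (hy : r ≤ ‖y - x‖) : chg d w θ' x r y = 0 := by
  unfold chg
  have h2 : θ' (‖y - x‖ / r) = 0 := by
    apply hP.zero'
    right
    rw [le_div_iff₀ hr]
    linarith
  rw [h2, zero_div]

theorem chg_supp' {b A w : ℝ} {θ θ' : ℝ → ℝ} (hP : Pr2 b A θ θ') (x : En d) {r : ℝ}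
    (hr : 0 < r) (y : En d) (hy : ‖y - x‖ ≤ r / 2) : chg d w θ' x r y = 0 := by
  unfold chg
  have h2 : θ' (‖y - x‖ / r) = 0 := by
    apply hP.zero'
    left
    rw [div_le_iff₀ hr]
    linarith
  rw [h2, zero_div]

theorem chg_le {b A w : ℝ} {θ θ' : ℝ → ℝ} (hw : 0 < w) (hA : 0 ≤ A) (hP : Pr2 b A θ θ')
    (hd : 0 < d) (x : En d) {r : ℝ} (hr : 0 < r) (y : En d) :
    chg d w θ' x r y ≤ A * 2 ^ (d - 1) / (w * r ^ d) := by
  by_cases hy : ‖y - x‖ ≤ r / 2
  · rw [chg_supp' hP x hr y hy]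
    positivity
  · push Not at hy
    have h0 : 0 < ‖y - x‖ := by linarith
    have h1 := (hP.le' (‖y - x‖ / r)).2
    have h2 : (r / 2) ^ (d - 1) ≤ ‖y - x‖ ^ (d - 1) :=
      pow_le_pow_left₀ (by positivity) hy.le _
    have h3 : r * w * (r / 2) ^ (d - 1) ≤ r * w * ‖y - x‖ ^ (d - 1) :=
      mul_le_mul_of_nonneg_left h2 (by positivity)
    unfold chg
    calc θ' (‖y - x‖ / r) / (r * w * ‖y - x‖ ^ (d - 1))
        ≤ A / (r * w * (r / 2) ^ (d - 1)) := by
          apply div_le_div₀ hA h1 (by positivity) h3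
      _ = A * 2 ^ (d - 1) / (w * r ^ d) := by
          obtain ⟨e, rfl⟩ : ∃ e, d = e + 1 := ⟨d - 1, by omega⟩
          simp only [Nat.add_sub_cancel]
          rw [div_pow, pow_succ]
          field_simp

/-- The difference of the two profiles. -/
def qq (Θ θ : ℝ → ℝ) (r R t : ℝ) : ℝ := Θ (t / r) - θ (t / R)

/-- The data: two profiles and two radii. -/
structure Dat (b A₁ A₂ w r R : ℝ) (Θ Θ' θ θ' : ℝ → ℝ) : Prop where
  P1 : Pr2 b A₁ Θ Θ'
  P2 : Pr2 (1 / 2) A₂ θ θ'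
  b0 : 0 < b
  b1 : b ≤ 1
  w0 : 0 < w
  r0 : 0 < r
  rR : 2 * r ≤ R

variable {b A₁ A₂ w r R : ℝ} {Θ Θ' θ θ' : ℝ → ℝ}

theorem Dat.R0 (D : Dat b A₁ A₂ w r R Θ Θ' θ θ') : 0 < R := by
  have h1 := D.r0
  have h2 := D.rR
  linarith

theorem Dat.br (D : Dat b A₁ A₂ w r R Θ Θ' θ θ') : b * r ≤ R / 2 := by
  have h1 := D.r0
  have h2 := D.rR
  have h3 : b * r ≤ 1 * r := mul_le_mul_of_nonneg_right D.b1 h1.le
  linarith

theorem qq_nonneg (D : Dat b A₁ A₂ w r R Θ Θ' θ θ') (t : ℝ) : 0 ≤ qq Θ θ r R t := by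
  unfold qq
  have hR0 := D.R0
  have hr := D.r0
  have hrR := D.rR
  by_cases h : t ≤ R / 2
  · rw [D.P2.zero (t / R)]
    · have := (D.P1.rng (t / r)).1
      linarith
    · rw [div_le_iff₀ hR0]
      linarith
  · push Not at h
    rw [D.P1.one (t / r)]
    · have := (D.P2.rng (t / R)).2
      linarith
    · rw [le_div_iff₀ hr]
      linarith

theorem qq_le_one (D : Dat b A₁ A₂ w r R Θ Θ' θ θ') (t : ℝ) : qq Θ θ r R t ≤ 1 := by
  unfold qq
  have h1 := (D.P1.rng (t / r)).2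
  have h2 := (D.P2.rng (t / R)).1
  linarith

theorem qq_low (D : Dat b A₁ A₂ w r R Θ Θ' θ θ') {t : ℝ} (ht : t ≤ b * r) :
    qq Θ θ r R t = 0 := by
  unfold qq
  have hR0 := D.R0
  have hbr := D.br
  rw [D.P1.zero, D.P2.zero]
  · ring
  · rw [div_le_iff₀ hR0]
    linarith
  · rw [div_le_iff₀ D.r0]
    exact ht

theorem qq_high (D : Dat b A₁ A₂ w r R Θ Θ' θ θ') {t : ℝ} (ht : R ≤ t) : qq Θ θ r R t = 0 := by
  unfold qq
  have h1 := D.r0
  have h2 := D.rR
  rw [D.P1.one, D.P2.one]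
  · ring
  · rw [le_div_iff₀ D.R0]
    linarith
  · rw [le_div_iff₀ D.r0]
    linarith

theorem qq_smooth (D : Dat b A₁ A₂ w r R Θ Θ' θ θ') :
    ContDiff ℝ ((⊤ : ℕ∞) : WithTop ℕ∞) (qq Θ θ r R) := by
  unfold qq
  exact (D.P1.smooth.comp (contDiff_id.div_const r)).sub
    (D.P2.smooth.comp (contDiff_id.div_const R))

theorem qq_der (D : Dat b A₁ A₂ w r R Θ Θ' θ θ') (t : ℝ) :
    HasDerivAt (qq Θ θ r R) (Θ' (t / r) / r - θ' (t / R) / R) t := by
  unfold qq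
  have h1 := (D.P1.der (t / r)).comp t ((hasDerivAt_id t).div_const r)
  have h2 := (D.P2.der (t / R)).comp t ((hasDerivAt_id t).div_const R)
  have h3 := h1.sub h2
  have h4 : Θ' (t / r) * (1 / r) - θ' (t / R) * (1 / R) = Θ' (t / r) / r - θ' (t / R) / R := by
    ring
  rw [h4] at h3
  exact h3

/-- The radial factor of the gradient. -/
def mm (d : ℕ) (w : ℝ) (Θ θ : ℝ → ℝ) (r R t : ℝ) : ℝ := qq Θ θ r R t / (w * t ^ d)

theorem mm_low (D : Dat b A₁ A₂ w r R Θ Θ' θ θ') {t : ℝ} (ht : t ≤ b * r) :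
    mm d w Θ θ r R t = 0 := by
  unfold mm
  rw [qq_low D ht, zero_div]

theorem mm_high (D : Dat b A₁ A₂ w r R Θ Θ' θ θ') {t : ℝ} (ht : R ≤ t) :
    mm d w Θ θ r R t = 0 := by
  unfold mm
  rw [qq_high D ht, zero_div]

/-- The density of the potential. -/
def pp (d : ℕ) (w : ℝ) (Θ θ : ℝ → ℝ) (r R t : ℝ) : ℝ := qq Θ θ r R t / (w * t ^ (d - 1))

theorem pp_low (D : Dat b A₁ A₂ w r R Θ Θ' θ θ') {t : ℝ} (ht : t ≤ b * r) :
    pp d w Θ θ r R t = 0 := by
  unfold pp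
  rw [qq_low D ht, zero_div]

theorem pp_high (D : Dat b A₁ A₂ w r R Θ Θ' θ θ') {t : ℝ} (ht : R ≤ t) :
    pp d w Θ θ r R t = 0 := by
  unfold pp
  rw [qq_high D ht, zero_div]

theorem pp_cont (D : Dat b A₁ A₂ w r R Θ Θ' θ θ') : Continuous (pp d w Θ θ r R) := by
  rw [continuous_iff_continuousAt]
  intro t
  have hbr : 0 < b * r := mul_pos D.b0 D.r0
  by_cases ht : 0 < t
  · have h1 := sm_quot (qq_smooth D) D.w0.ne' (d - 1)
    exact (h1.continuousOn).continuousAt (Ioi_mem_nhds ht)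
  · have h2 : (fun _ : ℝ => (0 : ℝ)) =ᶠ[𝓝 t] pp d w Θ θ r R := by
      filter_upwards [Iio_mem_nhds (show t < b * r by linarith)] with s hs
      exact (pp_low D (le_of_lt hs)).symm
    exact continuousAt_const.congr h2

/-- The radial potential. -/
def QQ (d : ℕ) (w : ℝ) (Θ θ : ℝ → ℝ) (r R s : ℝ) : ℝ := ∫ t in s..R, pp d w Θ θ r R t

theorem QQ_der (D : Dat b A₁ A₂ w r R Θ Θ' θ θ') (s : ℝ) :
    HasDerivAt (QQ d w Θ θ r R) (-pp d w Θ θ r R s) s := by
  have hc : Continuous (pp d w Θ θ r R) := pp_cont D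
  unfold QQ
  exact intervalIntegral.integral_hasDerivAt_left (hc.intervalIntegrable _ _)
    (hc.stronglyMeasurableAtFilter _ _) hc.continuousAt

theorem QQ_smooth (D : Dat b A₁ A₂ w r R Θ Θ' θ θ') :
    ContDiffOn ℝ ((⊤ : ℕ∞) : WithTop ℕ∞) (QQ d w Θ θ r R) (Ioi 0) := by
  have h1 : ContDiffOn ℝ ((⊤ : ℕ∞) : WithTop ℕ∞) (deriv (QQ d w Θ θ r R)) (Ioi 0) := by
    have h2 : deriv (QQ d w Θ θ r R) = fun s => -pp d w Θ θ r R s := by
      funext s
      exact (QQ_der D s).deriv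
    rw [h2]
    exact (sm_quot (qq_smooth D) D.w0.ne' (d - 1)).neg
  rw [contDiffOn_infty_iff_deriv_of_isOpen isOpen_Ioi]
  exact ⟨fun s _ => (QQ_der D s).differentiableAt.differentiableWithinAt, h1⟩

theorem QQ_low (D : Dat b A₁ A₂ w r R Θ Θ' θ θ') {s : ℝ} (hs : s < b * r) :
    QQ d w Θ θ r R s = QQ d w Θ θ r R 0 := by
  have hc : Continuous (pp d w Θ θ r R) := pp_cont D
  have hbr : 0 < b * r := mul_pos D.b0 D.r0
  unfold QQ
  rw [← intervalIntegral.integral_add_adjacent_intervals (hc.intervalIntegrable s 0)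
    (hc.intervalIntegrable 0 R)]
  have h1 : ∫ t in s..0, pp d w Θ θ r R t = 0 := by
    apply intervalIntegral.integral_zero_ae
    refine Eventually.of_forall fun t ht => ?_
    apply pp_low D
    rw [uIoc] at ht
    have : t ≤ max s 0 := ht.2
    rcases le_max_iff.1 this with h | h
    · linarith
    · linarith
  rw [h1, zero_add]

theorem QQ_high (D : Dat b A₁ A₂ w r R Θ Θ' θ θ') {s : ℝ} (hs : R ≤ s) :
    QQ d w Θ θ r R s = 0 := by
  unfold QQ
  apply intervalIntegral.integral_zero_ae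
  refine Eventually.of_forall fun t ht => ?_
  apply pp_high D
  rw [uIoc, min_eq_right hs] at ht
  exact ht.1.le

theorem QQ_nonneg (D : Dat b A₁ A₂ w r R Θ Θ' θ θ') {s : ℝ} (hs : 0 ≤ s) :
    0 ≤ QQ d w Θ θ r R s := by
  rcases le_total s R with h | h
  · unfold QQ
    apply intervalIntegral.integral_nonneg h
    intro t ht
    unfold pp
    have h1 := qq_nonneg D t
    have h2 := D.w0
    have h3 : 0 ≤ t := hs.trans ht.1
    positivity
  · rw [QQ_high D h]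

theorem mm_low0 (D : Dat b A₁ A₂ w r R Θ Θ' θ θ') {s : ℝ} (hs : s < b * r) :
    mm d w Θ θ r R s = mm d w Θ θ r R 0 := by
  have hbr : 0 < b * r := mul_pos D.b0 D.r0
  rw [mm_low D hs.le, mm_low D (by positivity)]

theorem mm_der (D : Dat b A₁ A₂ w r R Θ Θ' θ θ') (hd : 0 < d) {t : ℝ} (ht : 0 < t) :
    deriv (mm d w Θ θ r R) t * t + d * mm d w Θ θ r R t =
      (Θ' (t / r) / r - θ' (t / R) / R) / (w * t ^ (d - 1)) := by
  have hs := D.w0.ne'
  have h1 : HasDerivAt (fun s : ℝ => w * s ^ d) (w * (d * t ^ (d - 1))) t :=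
    (hasDerivAt_pow d t).const_mul w
  have h2 : HasDerivAt (mm d w Θ θ r R) _ t := (qq_der D t).div h1 (by positivity)
  rw [h2.deriv]
  unfold mm
  have ht' := ht.ne'
  have hr' := D.r0.ne'
  have hR' := D.R0.ne'
  obtain ⟨e, rfl⟩ : ∃ e, d = e + 1 := ⟨d - 1, by omega⟩
  simp only [Nat.add_sub_cancel]
  push_cast
  field_simp
  ring

/-- The potential. -/
def psi (w : ℝ) (Θ θ : ℝ → ℝ) (x : En d) (r R : ℝ) (y : En d) : ℝ := QQ d w Θ θ r R ‖y - x‖

/-- The factor of the gradient. -/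
def MM (w : ℝ) (Θ θ : ℝ → ℝ) (x : En d) (r R : ℝ) (y : En d) : ℝ := mm d w Θ θ r R ‖y - x‖

theorem psi_grad (rgr : RgrStmt) (D : Dat b A₁ A₂ w r R Θ Θ' θ θ') (hd : 0 < d) (x : En d) :
    ContDiff ℝ ((⊤ : ℕ∞) : WithTop ℕ∞) (psi w Θ θ x r R) ∧
    ∀ y, gradient (psi w Θ θ x r R) y = (-MM w Θ θ x r R y) • (y - x) := by
  obtain ⟨h1, h2⟩ := rgr d x (QQ d w Θ θ r R) (b * r) (mul_pos D.b0 D.r0) (QQ_smooth D)
    (fun s hs => QQ_low D hs)
  refine ⟨h1, fun y => ?_⟩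
  have h3 := h2 y
  have h4 : gradient (psi w Θ θ x r R) y =
      (deriv (QQ d w Θ θ r R) ‖y - x‖ / ‖y - x‖) • (y - x) := h3
  rw [h4]
  by_cases hy : y - x = 0
  · rw [hy, smul_zero, smul_zero]
  · congr 1
    have h5 : ‖y - x‖ ≠ 0 := norm_ne_zero_iff.2 hy
    rw [(QQ_der D ‖y - x‖).deriv]
    unfold MM pp mm
    have hs := D.w0.ne'
    obtain ⟨e, rfl⟩ : ∃ e, d = e + 1 := ⟨d - 1, by omega⟩
    simp only [Nat.add_sub_cancel]
    rw [pow_succ]
    field_simp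

theorem MM_grad (rgr : RgrStmt) (D : Dat b A₁ A₂ w r R Θ Θ' θ θ') (x : En d) :
    ContDiff ℝ ((⊤ : ℕ∞) : WithTop ℕ∞) (MM w Θ θ x r R) ∧
    ∀ y, gradient (MM w Θ θ x r R) y =
      (deriv (mm d w Θ θ r R) ‖y - x‖ / ‖y - x‖) • (y - x) :=
  rgr d x (mm d w Θ θ r R) (b * r) (mul_pos D.b0 D.r0) (sm_quot (qq_smooth D) D.w0.ne' d)
    (fun s hs => mm_low0 D hs)

/-- The divergence of the gradient of the potential. -/
theorem dive (rgr : RgrStmt) (D : Dat b A₁ A₂ w r R Θ Θ' θ θ') (hd : 0 < d) (x : En d)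
    (y : En d) :
    ∑ i : Fin d, fderiv ℝ (fun z : En d => MM w Θ θ x r R z *
      ⟪EuclideanSpace.basisFun (Fin d) ℝ i, z - x⟫_ℝ) y (EuclideanSpace.basisFun (Fin d) ℝ i) =
      chg d w Θ' x r y - chg d w θ' x R y := by
  obtain ⟨h1, h2⟩ := MM_grad rgr D x
  set e := EuclideanSpace.basisFun (Fin d) ℝ with he
  have hdM : DifferentiableAt ℝ (MM w Θ θ x r R) y :=
    (h1.differentiable (by simp)).differentiableAt
  have h3 : ∀ i : Fin d, fderiv ℝ (fun z : En d => MM w Θ θ x r R z * ⟪e i, z - x⟫_ℝ) y (e i) =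
      MM w Θ θ x r R y + ⟪gradient (MM w Θ θ x r R) y, e i⟫_ℝ * ⟪e i, y - x⟫_ℝ := by
    intro i
    have h4 : HasFDerivAt (fun z : En d => ⟪e i, z - x⟫_ℝ) (innerSL ℝ (e i)) y := by
      have h5 : HasFDerivAt (fun z : En d => z - x) (ContinuousLinearMap.id ℝ (En d)) y :=
        (hasFDerivAt_id y).sub_const x
      have h6 := (innerSL ℝ (e i)).hasFDerivAt.comp y h5
      exact h6
    have h7 : HasFDerivAt (fun z : En d => MM w Θ θ x r R z * ⟪e i, z - x⟫_ℝ)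
        (MM w Θ θ x r R y • innerSL ℝ (e i) +
          ⟪e i, y - x⟫_ℝ • fderiv ℝ (MM w Θ θ x r R) y) y :=
      hdM.hasFDerivAt.mul h4
    rw [h7.fderiv]
    have h8 : ⟪gradient (MM w Θ θ x r R) y, e i⟫_ℝ = fderiv ℝ (MM w Θ θ x r R) y (e i) := by
      unfold gradient
      rw [InnerProductSpace.toDual_symm_apply]
    have h9 : ⟪e i, e i⟫_ℝ = 1 := by
      rw [real_inner_self_eq_norm_sq, e.norm_eq_one]
      norm_num
    rw [h8]
    simp only [_root_.add_apply, _root_.smul_apply, smul_eq_mul, innerSL_apply_apply]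
    rw [h9]
    ring
  rw [Finset.sum_congr rfl (fun i _ => h3 i), Finset.sum_add_distrib, e.sum_inner_mul_inner]
  rw [h2 y, inner_smul_left, real_inner_self_eq_norm_sq]
  simp only [Finset.sum_const, Finset.card_univ, Fintype.card_fin, nsmul_eq_mul, conj_trivial]
  have hr := D.r0
  have hR0 := D.R0
  by_cases hy : y - x = 0
  · have h10 : chg d w Θ' x r y = 0 := by
      apply chg_supp' D.P1 x hr
      rw [hy, norm_zero]
      positivity
    have h11 : chg d w θ' x R y = 0 := by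
      apply chg_supp' D.P2 x hR0
      rw [hy, norm_zero]
      linarith
    have h12 : MM w Θ θ x r R y = 0 := by
      unfold MM
      apply mm_low D
      rw [hy, norm_zero]
      exact (mul_pos D.b0 D.r0).le
    rw [h10, h11, h12, hy, norm_zero]
    ring
  · have h5 : 0 < ‖y - x‖ := norm_pos_iff.2 hy
    have h13 := mm_der D hd h5
    have h14 : deriv (mm d w Θ θ r R) ‖y - x‖ / ‖y - x‖ * ‖y - x‖ ^ 2 =
        deriv (mm d w Θ θ r R) ‖y - x‖ * ‖y - x‖ := by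
      field_simp
    rw [h14]
    unfold MM chg
    rw [add_comm, h13]
    have hs := D.w0.ne'
    have hr' := hr.ne'
    have hR' := hR0.ne'
    have h6 := h5.ne'
    rw [sub_div, div_div, div_div]
    congr 2
    · ring
    · ring

/-- Integration by parts. -/
theorem lapl (rgr : RgrStmt) (D : Dat b A₁ A₂ w r R Θ Θ' θ θ') (hd : 0 < d) (x : En d)
    (φ : En d → ℝ) (hφ : ContDiff ℝ ((⊤ : ℕ∞) : WithTop ℕ∞) φ) (hc : HasCompactSupport φ) :
    ∫ y, ⟪gradient φ y, gradient (psi w Θ θ x r R) y⟫_ℝ =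
      ∫ y, φ y * (chg d w Θ' x r y - chg d w θ' x R y) := by
  obtain ⟨h1, h2⟩ := MM_grad rgr D x
  obtain ⟨_, h3⟩ := psi_grad rgr D hd x
  set e := EuclideanSpace.basisFun (Fin d) ℝ with he
  set W : Fin d → En d → ℝ := fun i z => MM w Θ θ x r R z * ⟪e i, z - x⟫_ℝ with hW
  have hWs : ∀ i, ContDiff ℝ ((⊤ : ℕ∞) : WithTop ℕ∞) (W i) := fun i =>
    h1.mul (contDiff_const.inner ℝ (contDiff_id.sub contDiff_const))
  have hφd : Differentiable ℝ φ := hφ.differentiable (by simp)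
  have hφc : Continuous (fderiv ℝ φ) := hφ.continuous_fderiv (by simp)
  have hcf : HasCompactSupport (fderiv ℝ φ) := hc.fderiv (𝕜 := ℝ)
  have i1 : ∀ i, Integrable (fun y => fderiv ℝ φ y (e i) * W i y) := by
    intro i
    apply Continuous.integrable_of_hasCompactSupport
    · exact (hφc.clm_apply continuous_const).mul (hWs i).continuous
    · exact (hcf.comp_left (g := fun L : En d →L[ℝ] ℝ => L (e i)) (by simp)).mul_right
  have i2 : ∀ i, Integrable (fun y => φ y * fderiv ℝ (W i) y (e i)) := by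
    intro i
    apply Continuous.integrable_of_hasCompactSupport
    · exact hφ.continuous.mul (((hWs i).continuous_fderiv (by simp)).clm_apply continuous_const)
    · exact hc.mul_right
  have i3 : ∀ i, Integrable (fun y => φ y * W i y) := by
    intro i
    apply Continuous.integrable_of_hasCompactSupport
    · exact hφ.continuous.mul (hWs i).continuous
    · exact hc.mul_right
  have h4 : ∀ y, ⟪gradient φ y, gradient (psi w Θ θ x r R) y⟫_ℝ =
      -∑ i : Fin d, fderiv ℝ φ y (e i) * W i y := by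
    intro y
    rw [h3 y, inner_smul_right, ← e.sum_inner_mul_inner, Finset.mul_sum, ← Finset.sum_neg_distrib]
    refine Finset.sum_congr rfl fun i _ => ?_
    have h8 : ⟪gradient φ y, e i⟫_ℝ = fderiv ℝ φ y (e i) := by
      unfold gradient
      rw [InnerProductSpace.toDual_symm_apply]
    rw [h8]
    simp only [hW]
    ring
  have h5 : ∀ y, φ y * (chg d w Θ' x r y - chg d w θ' x R y) =
      ∑ i : Fin d, φ y * fderiv ℝ (W i) y (e i) := by
    intro y
    rw [← dive rgr D hd x y, Finset.mul_sum]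
  simp_rw [h4, h5]
  rw [integral_neg, integral_finsetSum _ (fun i _ => i1 i), integral_finsetSum _ (fun i _ => i2 i),
    ← Finset.sum_neg_distrib]
  refine Finset.sum_congr rfl fun i _ => ?_
  exact (integral_mul_fderiv_eq_neg_fderiv_mul_of_integrable (i1 i) (i2 i) (i3 i)
    (fun z _ => hφd z) (fun z _ => ((hWs i).differentiable (by simp)) z)).symm

/-- The total charge. -/
theorem chg_int (rad : RadStmt) (hs0 : 0 < sphd d) {b A : ℝ} {θ θ' : ℝ → ℝ} (hb : 0 ≤ b)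
    (hP : Pr2 b A θ θ') (hd : 0 < d) (x : En d) {r : ℝ} (hr : 0 < r) :
    ∫ y, chg d (sphd d) θ' x r y = 1 := by
  have h1 := rad d hd x (fun t => θ' (t / r) / (r * sphd d * t ^ (d - 1)))
  have h2 : ∫ y, chg d (sphd d) θ' x r y =
    ∫ y : En d, θ' (‖y - x‖ / r) / (r * sphd d * ‖y - x‖ ^ (d - 1)) := rfl
  rw [h2, h1]
  have hs := hs0.ne'
  have h3 : ∫ ρ in Ioi (0 : ℝ), ρ ^ (d - 1) * (θ' (ρ / r) / (r * sphd d * ρ ^ (d - 1))) =
      ∫ ρ in Ioi (0 : ℝ), (sphd d)⁻¹ * (θ' (ρ / r) / r) := by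
    apply setIntegral_congr_fun measurableSet_Ioi
    intro ρ hρ
    have h4 : ρ ^ (d - 1) ≠ 0 := pow_ne_zero _ (ne_of_gt hρ)
    have hr' := hr.ne'
    show ρ ^ (d - 1) * (θ' (ρ / r) / (r * sphd d * ρ ^ (d - 1))) =
      (sphd d)⁻¹ * (θ' (ρ / r) / r)
    field_simp
  rw [h3, integral_const_mul, ← mul_assoc, mul_inv_cancel₀ hs, one_mul]
  have h5 : ∫ ρ in Ioi (0 : ℝ), θ' (ρ / r) / r = ∫ ρ in Ioc (0 : ℝ) r, θ' (ρ / r) / r := by
    apply setIntegral_eq_of_subset_of_forall_sdiff_eq_zero measurableSet_Ioi Ioc_subset_Ioi_self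
    intro ρ hρ
    have h6 : r ≤ ρ := by
      by_contra hcon
      exact hρ.2 ⟨hρ.1, (not_le.1 hcon).le⟩
    have h7 : θ' (ρ / r) = 0 := by
      apply hP.zero'
      right
      rw [le_div_iff₀ hr]
      linarith
    rw [h7, zero_div]
  rw [h5, ← intervalIntegral.integral_of_le hr.le]
  have h8 : ∀ t ∈ uIcc (0 : ℝ) r, HasDerivAt (fun s => θ (s / r)) (θ' (t / r) / r) t := by
    intro t _
    have h9 := (hP.der (t / r)).comp t ((hasDerivAt_id t).div_const r)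
    have h10 : θ' (t / r) * (1 / r) = θ' (t / r) / r := by ring
    rw [h10] at h9
    exact h9
  have hcont : Continuous (fun t => θ' (t / r) / r) :=
    (hP.smooth'.continuous.comp (continuous_id.div_const r)).div_const r
  rw [intervalIntegral.integral_eq_sub_of_hasDerivAt h8 (hcont.intervalIntegrable _ _)]
  rw [div_self hr.ne', hP.one 1 le_rfl, zero_div, hP.zero 0 hb]
  norm_num

/-- The energy. -/
theorem engy (rad : RadStmt) (rgr : RgrStmt)
    (D : Dat b A₁ A₂ (sphd d) r R Θ Θ' θ θ') (hd : 0 < d) (x : En d) :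
    ∫ y, ‖gradient (psi (sphd d) Θ θ x r R) y‖ ^ 2 ≤
      (sphd d)⁻¹ * ∫ ρ in (b * r)..R, (ρ ^ (d - 1))⁻¹ := by
  obtain ⟨_, h3⟩ := psi_grad rgr D hd x
  have hs0 := D.w0
  have hs := hs0.ne'
  have hR0 : 0 < R := D.R0
  have hbr0 : 0 < b * r := mul_pos D.b0 D.r0
  have h4 : ∀ y, ‖gradient (psi (sphd d) Θ θ x r R) y‖ ^ 2 =
      (fun ρ : ℝ => mm d (sphd d) Θ θ r R ρ ^ 2 * ρ ^ 2) ‖y - x‖ := by
    intro y
    rw [h3 y, norm_smul, Real.norm_eq_abs, abs_neg, mul_pow, sq_abs]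
    rfl
  simp_rw [h4]
  rw [rad d hd x (fun ρ : ℝ => mm d (sphd d) Θ θ r R ρ ^ 2 * ρ ^ 2)]
  have h5 : ∫ ρ in Ioi (0 : ℝ), ρ ^ (d - 1) * (mm d (sphd d) Θ θ r R ρ ^ 2 * ρ ^ 2) =
      ∫ ρ in Ioc (b * r) R, ρ ^ (d - 1) * (mm d (sphd d) Θ θ r R ρ ^ 2 * ρ ^ 2) := by
    apply setIntegral_eq_of_subset_of_forall_sdiff_eq_zero measurableSet_Ioi
    · intro ρ hρ
      have : b * r < ρ := hρ.1
      show 0 < ρ
      linarith
    · intro ρ hρ
      have h6 : mm d (sphd d) Θ θ r R ρ = 0 := by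
        by_cases h7 : ρ ≤ b * r
        · exact mm_low D h7
        · apply mm_high D
          by_contra hcon
          exact hρ.2 ⟨not_le.1 h7, (not_le.1 hcon).le⟩
      rw [h6]
      ring
  have h8 : ∀ ρ ∈ Ioc (b * r) R, ρ ^ (d - 1) * (mm d (sphd d) Θ θ r R ρ ^ 2 * ρ ^ 2) =
      (sphd d)⁻¹ ^ 2 * (qq Θ θ r R ρ ^ 2 * (ρ ^ (d - 1))⁻¹) := by
    intro ρ hρ
    have h9 : ρ ≠ 0 := by
      have : b * r < ρ := hρ.1
      intro h
      linarith
    unfold mm
    obtain ⟨e, he⟩ : ∃ e, d = e + 1 := ⟨d - 1, by omega⟩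
    have he1 : d - 1 = e := by omega
    have he2 : ρ ^ d = ρ ^ e * ρ := by rw [he, pow_succ]
    rw [he1, he2]
    field_simp
  rw [h5, setIntegral_congr_fun measurableSet_Ioc h8, integral_const_mul]
  have hle : b * r ≤ R := by
    have := D.br
    linarith
  have hci : ContinuousOn (fun ρ : ℝ => (ρ ^ (d - 1))⁻¹) (Icc (b * r) R) := by
    apply (continuousOn_pow (d - 1)).inv₀
    intro t ht
    apply pow_ne_zero
    have : b * r ≤ t := ht.1
    intro h
    linarith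
  have hcq : ContinuousOn (fun ρ : ℝ => qq Θ θ r R ρ ^ 2 * (ρ ^ (d - 1))⁻¹) (Icc (b * r) R) :=
    ((qq_smooth D).continuous.pow 2).continuousOn.mul hci
  have h10 : ∫ ρ in Ioc (b * r) R, qq Θ θ r R ρ ^ 2 * (ρ ^ (d - 1))⁻¹ ≤
      ∫ ρ in Ioc (b * r) R, (ρ ^ (d - 1))⁻¹ := by
    apply setIntegral_mono_on
    · exact (hcq.integrableOn_Icc).mono_set Ioc_subset_Icc_self
    · exact (hci.integrableOn_Icc).mono_set Ioc_subset_Icc_self
    · exact measurableSet_Ioc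
    · intro ρ hρ
      have hρ0 : 0 < ρ := by
        have : b * r < ρ := hρ.1
        linarith
      have h11 := qq_nonneg D ρ
      have h12 := qq_le_one D ρ
      have h13 : qq Θ θ r R ρ ^ 2 ≤ 1 := pow_le_one₀ h11 h12
      exact mul_le_of_le_one_left (by positivity) h13
  rw [intervalIntegral.integral_of_le hle]
  calc sphd d * ((sphd d)⁻¹ ^ 2 * ∫ ρ in Ioc (b * r) R, qq Θ θ r R ρ ^ 2 * (ρ ^ (d - 1))⁻¹)
      = (sphd d)⁻¹ * ∫ ρ in Ioc (b * r) R, qq Θ θ r R ρ ^ 2 * (ρ ^ (d - 1))⁻¹ := by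
        field_simp
    _ ≤ _ := mul_le_mul_of_nonneg_left h10 (by positivity)

/-- HFD -/
theorem hfd (vod : VodStmt) (rad : RadStmt) (rgr : RgrStmt) : HfdStmt := by
  intro d k A θ θ' hd hk hA hP x R hR0
  have hd0 : 0 < d := by omega
  have hs : 0 < sphd d := (vod.1 d hd0).1
  have hkA : (1 : ℝ) ≤ k := by exact_mod_cast hk
  have hP2 := pr2_of hP
  refine ⟨chg d (sphd d) θ' x R, fun r γ lam hr hR hγ hl hl2 hen => ?_⟩
  have hP1 := pr2_in hA hP hk hl hl2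
  have hl1 : lam ≤ 1 := by
    by_contra h
    push Not at h
    have h1 : 1 ≤ lam ^ k := one_le_pow₀ h.le
    linarith
  have D : Dat lam (k * A) A (sphd d) r R (TT k θ) (TT' k θ θ') θ θ' :=
    ⟨hP1, hP2, hl, hl1, hs, hr, hR⟩
  obtain ⟨hsm, hgr⟩ := psi_grad rgr D hd0 x
  refine ⟨psi (sphd d) (TT k θ) θ x r R, chg d (sphd d) (TT' k θ θ') x r, ?_⟩
  constructor
  · exact hsm
  · intro y
    exact QQ_nonneg D (norm_nonneg _)
  · intro y hy
    exact QQ_high D hy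
  · exact (chg_smooth rgr hs hP1 x hr).continuous
  · exact (chg_smooth rgr hs hP2 x hR0).continuous
  · exact chg_nonneg hs hP1 x hr
  · exact chg_supp hP1 x hr
  · intro y
    have h1 := chg_le hs (by positivity) hP1 hd0 x hr y
    have h2 : k * A * 2 ^ (d - 1) / (sphd d * R ^ d) * R ^ d / r ^ d =
        k * A * 2 ^ (d - 1) / (sphd d * r ^ d) := by
      have hR' := hR0.ne'
      have hr' := hr.ne'
      field_simp
    rw [h2]
    exact h1
  · exact chg_int rad hs hl.le hP1 hd0 x hr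
  · intro y
    refine ⟨chg_nonneg hs hP2 x hR0 y, (chg_le hs hA.le hP2 hd0 x hR0 y).trans ?_⟩
    apply div_le_div_of_nonneg_right _ (by positivity)
    have h3 : A ≤ k * A := le_mul_of_one_le_left hA.le hkA
    exact mul_le_mul_of_nonneg_right h3 (by positivity)
  · exact chg_supp hP2 x hR0
  · intro y h1 h2
    unfold chg
    have h3 : 0 < θ' (‖y - x‖ / R) := by
      apply hP.pos
      · rw [lt_div_iff₀ hR0]
        linarith
      · rw [div_lt_one hR0]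
        exact h2
    have h4 : 0 < ‖y - x‖ := by linarith
    positivity
  · intro φ hφ hc
    exact lapl rgr D hd0 x φ hφ hc
  · exact (engy rad rgr D hd0 x).trans hen

end

end Pool.Agent.BEH.H41
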