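import Pool.Agent.BEH.StmtsS
import Pool.Agent.Helper53_BEL.Fin

/-!
# DES of the squad BEH (problem MP_be01ff_an): stability of the theorem on small holes
(the last part is a port of Helper69_BEH/DED.lean)
-/

set_option autoImplicit false

namespace Pool.Agent.BEH.H41

open Set Filter Topology MeasureTheory
open scoped InnerProductSpace ENNReal
open Pool.Agent.BE01 Pool.Agent.BEL Pool.Agent.BEH

noncomputable section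

theorem des_aux (emp : EmpStmt) (eig : EigStmt) (egk : EgkStmt) (stb : StbStmt) (dec : DecStmt)
    (std : StdStmt) (pow : PowStmt) : DesStmt := by
  intro d hd2 huni Ω P δ hΩ hconn hδ
  have hd0 : 0 < d := by omega
  obtain ⟨ι, hemb, hgrf⟩ := emp d Ω hd0 hΩ
  obtain ⟨b, e, om, hspec⟩ := eig d Ω ι hd0 hΩ hemb
  have hok : Ok Ω ι b e om := ⟨hΩ, hemb, hgrf, hspec⟩
  obtain ⟨C, hC, hstd⟩ := std d hd0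
  -- constants
  obtain ⟨V, hV⟩ : ∃ V : ℝ, V = volume.real Ω + 1 := ⟨_, rfl⟩
  have hVΩ : 0 ≤ volume.real Ω := measureReal_nonneg
  have hV0 : 0 < V := by linarith
  have hd4 : (0 : ℝ) ≤ (d : ℝ) / 4 := by positivity
  obtain ⟨B₁, hB₁⟩ : ∃ B₁ : ℝ, B₁ = max (om 0 ^ 2 + 3) (C * (om 0 ^ 2 + 3) ^ ((d : ℝ) / 4)) :=
    ⟨_, rfl⟩
  have hMp : ∀ p : ℕ, ∃ M : ℕ, 1 ≤ p → ∀ Ω' : Set (En d), Dom Ω' → Ω' ⊆ Ω →
      ∀ (l : ℝ) (φ : Lp ℝ 2 (mu Ω')), 0 < l → l ≤ B₁ → ‖φ‖ = 1 → (∀ᵐ y ∂(mu Ω'), |φ y| ≤ B₁) →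
      (V ^ p)⁻¹ ≤ ∫ y, φ y ^ (2 * p + 2) ∂(mu Ω') → IsEig Ω' l φ →
      (∀ u, IsEig Ω' l u → ∃ c : ℝ, u = c • φ) →
      (∀ n : ℕ, Odd n → 3 ≤ n → n ≤ M → ∀ u, IsEig Ω' ((n : ℝ) ^ 2 * l) u → u = 0) →
      Rt Ω' 1 ((2 * p : ℕ) : ℝ) := by
    intro p
    by_cases hp : 1 ≤ p
    · obtain ⟨M, hM⟩ := huni Ω p 1 B₁ (V ^ p)⁻¹ hΩ hp one_pos (inv_pos.2 (pow_pos hV0 p))
      exact ⟨M, fun _ => hM⟩
    · exact ⟨0, fun h => absurd h hp⟩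
  choose Mf hMf using hMp
  obtain ⟨M, hM⟩ : ∃ M : ℕ, M = (Finset.range (P + 1)).sup Mf := ⟨_, rfl⟩
  obtain ⟨J, x, r, h1, h2, h3, h4, h5, h6⟩ := dec d hd2 Ω ι b e om M δ hok hconn hδ
  have hsub : Hl Ω x r ⊆ Ω := fun _ hy => hy.1
  obtain ⟨ι', hemb', hgrf'⟩ := emp d (Hl Ω x r) hd0 h5
  obtain ⟨b', e', om', hspec'⟩ := eig d (Hl Ω x r) ι' hd0 h5 hemb'
  have hok' : Ok (Hl Ω x r) ι' b' e' om' := ⟨h5, hemb', hgrf', hspec'⟩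
  obtain ⟨s1, s2, s3⟩ := h6 ι' b' e' om' hok'
  obtain ⟨K₀, hK₀, hK₀s, hK⟩ := stb d (Hl Ω x r) ι' b' e' om' hok' M 1 one_pos s1 s3
  obtain ⟨y₀, hy₀⟩ := h5.2.2
  refine ⟨J, x, r, K₀ ∪ {y₀}, h1, h2, h3, h4, hK₀.union isCompact_singleton,
    union_subset hK₀s (singleton_subset_iff.2 hy₀), ?_⟩
  intro Ω' hopen hKΩ hΩs p hp hpP
  have hsubΩ : Ω' ⊆ Ω := hΩs.trans hsub
  have hy' : y₀ ∈ Ω' := hKΩ (Or.inr rfl)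
  have hΩ' : Dom Ω' := ⟨hopen, hΩ.2.1.subset hsubΩ, ⟨y₀, hy'⟩⟩
  obtain ⟨ι₂, hemb₂, hgrf₂⟩ := emp d Ω' hd0 hΩ'
  obtain ⟨b₂, e₂, om₂, hspec₂⟩ := eig d Ω' ι₂ hd0 hΩ' hemb₂
  have hok₂ : Ok Ω' ι₂ b₂ e₂ om₂ := ⟨hΩ', hemb₂, hgrf₂, hspec₂⟩
  obtain ⟨t1, t2, t3⟩ := hK Ω' ι₂ b₂ e₂ om₂ hok₂ (subset_union_left.trans hKΩ) hΩs
  obtain ⟨hE1, hE2, hE3⟩ := egk d Ω' ι₂ b₂ e₂ om₂ hok₂
  have hnorm : ‖b₂ 0‖ = 1 := b₂.orthonormal.1 0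
  have hl0 : 0 < om₂ 0 ^ 2 := pow_pos (hspec₂.pos 0) 2
  have hl3 : om₂ 0 ^ 2 ≤ om 0 ^ 2 + 3 := by linarith
  have hlB : om₂ 0 ^ 2 ≤ B₁ := by
    rw [hB₁]
    exact hl3.trans (le_max_left _ _)
  have hbd : ∀ᵐ y ∂(mu Ω'), |b₂ 0 y| ≤ B₁ := by
    filter_upwards [hstd Ω' ι₂ b₂ e₂ om₂ hok₂ _ _ (hE1 0)] with y hy
    refine hy.trans ?_
    rw [hnorm, mul_one, abs_of_nonneg hl0.le, hB₁]
    refine le_trans ?_ (le_max_right _ _)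
    exact mul_le_mul_of_nonneg_left (Real.rpow_le_rpow hl0.le hl3 hd4) hC.le
  have hVle : volume.real Ω' ≤ V := by
    have h1 : volume.real Ω' ≤ volume.real Ω :=
      measureReal_mono hsubΩ hΩ.2.1.measure_lt_top.ne
    rw [hV]
    linarith
  have hpw := pow d Ω' p B₁ V (b₂ 0) hΩ' hbd hnorm hVle
  have hβ : (V ^ p)⁻¹ ≤ ∫ y, b₂ 0 y ^ (2 * p + 2) ∂(mu Ω') := by
    rw [inv_eq_one_div, div_le_iff₀ (pow_pos hV0 p), mul_comm]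
    exact hpw
  have hMM : Mf p ≤ M := by
    rw [hM]
    exact Finset.le_sup (f := Mf) (Finset.mem_range.2 (by omega))
  refine hMf p hp Ω' hΩ' hsubΩ (om₂ 0 ^ 2) (b₂ 0) hl0 hlB hnorm hbd hβ (hE1 0) (hE3 t1) ?_
  intro n hodd hn3 hnM u hu
  by_contra hu0
  obtain ⟨k, hk⟩ := hE2 _ u hu hu0
  exact t3 n hodd hn3 (hnM.trans hMM) k hk

/-- DES. -/
theorem des (egk : EgkStmt) (stb : StbStmt) (dec : DecStmt) (std : StdStmt) (pow : PowStmt) :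
    DesStmt :=
  des_aux BEL.H53.empA BEL.H53.eigA egk stb dec std pow

end

end Pool.Agent.BEH.H41
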